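import Pool.Agent.Lib_helper85.CoCF.Pumping

set_option linter.unusedSectionVars false

namespace CoCF

/-! ### arithmetic -/

theorem gcd_dvd_div {m p e c : ℕ} (hp : p.Prime) (hpe : p ^ e ∣ m) 
    (hc : ¬ p ^ e ∣ c) : Nat.gcd m c ∣ m / p := by
  obtain ⟨x, hx⟩ := Nat.gcd_dvd_left m c
  by_cases hpx : p ∣ x
  · obtain ⟨y, rfl⟩ := hpx
    refine ⟨y, ?_⟩
    have h1 : m = p * (Nat.gcd m c * y) := by
      calc m = Nat.gcd m c * (p * y) := hx
        _ = p * (Nat.gcd m c * y) := by ring
    exact Nat.div_eq_of_eq_mul_right hp.pos h1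
  · exfalso
    have h1 : Nat.Coprime (p ^ e) x := Nat.Coprime.pow_left e ((Nat.Prime.coprime_iff_not_dvd hp).mpr hpx)
    have h2 : p ^ e ∣ Nat.gcd m c * x := by rw [← hx]; exact hpe
    have h3 := h1.dvd_of_dvd_mul_right h2
    exact hc (h3.trans (Nat.gcd_dvd_right m c))

theorem exists_mul_add {m c k : ℕ} (hm : 0 < m) (h : Nat.gcd m c ∣ k) : ∃ r, m ∣ k + r * c := by
  obtain ⟨k1, hk1⟩ := h
  have hb := Nat.gcd_eq_gcd_ab m c
  set A := Nat.gcdA m c
  set B := Nat.gcdB m c
  refine ⟨((-(k1 : ℤ) * B) % m).toNat, ?_⟩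
  have hm' : (m : ℤ) ≠ 0 := by exact_mod_cast hm.ne'
  have h1 : (((-(k1 : ℤ) * B) % m).toNat : ℤ) = (-(k1 : ℤ) * B) % m :=
    Int.toNat_of_nonneg (Int.emod_nonneg _ hm')
  have h2 : (m : ℤ) ∣ ((k + ((-(k1 : ℤ) * B) % m).toNat * c : ℕ) : ℤ) := by
    push_cast
    rw [h1]
    have h3 : (-(k1 : ℤ) * B) % m = (-(k1 : ℤ) * B) - m * ((-(k1 : ℤ) * B) / m) := by
      have := Int.emod_add_mul_ediv (-(k1 : ℤ) * B) m
      linarith
    rw [h3]
    have h4 : (k : ℤ) = (Nat.gcd m c : ℤ) * k1 := by exact_mod_cast hk1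
    rw [h4, hb]
    refine ⟨A * k1 - ((-(k1 : ℤ) * B) / m) * c, ?_⟩
    ring
  exact_mod_cast h2

theorem prime_pow_dvd {m p c t : ℕ} (hm : 0 < m) (hp : p.Prime)
    (h : ∀ r, ¬ m ∣ m / p * (1 + p * t) + r * c) : p ^ (m.factorization p) ∣ c := by
  by_contra hc
  have h1 := gcd_dvd_div hp (Nat.ordProj_dvd m p) hc
  obtain ⟨r, hr⟩ := exists_mul_add (k := m / p * (1 + p * t)) hm (h1.trans (Dvd.intro _ rfl))
  exact h r hr

/-! ### words -/

section Words

variable {T : Type} {G : Type} [Group G] (f : T → G)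

theorem fac_word (w : List T) [NeZero w.length] :
    fac (fun i : ZMod w.length => w.get ⟨i.val, ZMod.val_lt i⟩) 0 w.length = w := by
  apply List.ext_getElem
  · rw [length_fac]
  · intro j h1 h2
    simp only [fac, List.getElem_map, List.getElem_range, zero_add, List.get_eq_getElem]
    congr 1
    exact ZMod.val_natCast_of_lt h2

theorem prod_fac {n : ℕ} (a : ZMod n → T) (j : ℕ) :
    ((fac a 0 (n * j)).map f).prod = (((fac a 0 n).map f).prod) ^ j := by
  induction j with
  | zero => simp [fac_zero]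
  | succ j ih =>
    rw [mul_add, mul_one, fac_add, List.map_append, List.prod_append, ih, pow_succ]
    congr 3
    simp

end Words

theorem key {T : Type} {G : Type} [Group G] (f : T → G) (g : ContextFreeGrammar T)
    (hg : g.language = ({w : List T | (w.map f).prod ≠ 1} : Language T))
    {Q : Finset (List (Symbol T g.NT))} (hQ : Items g Q) (w : List T) [NeZero w.length]
    (hw : IsOfFinOrder (w.map f).prod) :
    ∃ c : (List (Symbol T g.NT) × ZMod w.length × ZMod w.length) → ℕ,
      (∀ τ, 0 < c τ ∧ c τ ≤ 2 ^ (Q.card * (w.length * w.length) + 1)) ∧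
      ∀ p, p.Prime → p ∣ orderOf (w.map f).prod →
        ∃ τ ∈ types (n := w.length) Q, p ^ ((orderOf (w.map f).prod).factorization p) ∣ c τ := by
  classical
  set n := w.length with hn
  set a : ZMod n → T := fun i => w.get ⟨i.val, ZMod.val_lt i⟩ with ha
  set γ := (w.map f).prod with hγ
  set m := orderOf γ with hm
  have hm0 : 0 < m := hw.orderOf_pos
  have hn0 : 0 < n := Nat.pos_of_ne_zero (NeZero.ne n)
  have hfac : fac a 0 n = w := fac_word w
  have hP : ∀ j : ℕ, (∃ N, D g a [Symbol.nonterminal g.initial] 0 (n * j) N) ↔ ¬ m ∣ j := by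
    intro j
    rw [← mem_language_iff, hg]
    change ((fac a 0 (n * j)).map f).prod ≠ 1 ↔ _
    rw [prod_fac, hfac, hm, orderOf_dvd_iff_pow_eq_one]
  let b := 2 ^ (Q.card * (n * n) + 1)
  have hb : (2 : ℕ) ^ ((types (n := n) Q).card + 1) = b := by rw [card_types]
  let c : (List (Symbol T g.NT) × ZMod n × ZMod n) → ℕ := fun τ =>
    if h : ∃ d, d ≤ b ∧ Pump g a τ.1 τ.2.1 τ.2.2 d then h.choose else 1
  refine ⟨c, ?_, ?_⟩
  · intro τ
    by_cases h : ∃ d, d ≤ b ∧ Pump g a τ.1 τ.2.1 τ.2.2 d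
    · have h1 : c τ = h.choose := dif_pos h
      rw [h1]
      exact ⟨h.choose_spec.2.1, h.choose_spec.1⟩
    · have h1 : c τ = 1 := dif_neg h
      rw [h1]
      exact ⟨one_pos, Nat.one_le_two_pow⟩
  · intro p hp hpm
    -- a large exponent
    set t := 2 ^ (types (n := n) Q).card with ht
    set k := m / p * (1 + p * t) with hk
    have hmp : 0 < m / p := Nat.div_pos (Nat.le_of_dvd hm0 hpm) hp.pos
    have hmk : ¬ m ∣ k := by
      intro h
      have h1 : m = p * (m / p) := (Nat.mul_div_cancel' hpm).symm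
      rw [hk] at h
      nth_rewrite 1 [h1] at h
      rw [mul_comm p (m / p)] at h
      have h2 := Nat.dvd_of_mul_dvd_mul_left hmp h
      have h3 : p ∣ 1 := by
        have h4 : p ∣ p * t := Dvd.intro _ rfl
        exact (Nat.dvd_add_left h4).mp h2
      exact hp.one_lt.ne' (Nat.dvd_one.mp h3)
    have hlarge : 2 ^ (types (n := n) Q).card ≤ n * k := by
      have h1 : t ≤ 1 + p * t := by nlinarith [hp.one_lt]
      have h2 : 1 + p * t ≤ k := Nat.le_mul_of_pos_left _ hmp
      have h3 : k ≤ n * k := Nat.le_mul_of_pos_left _ hn0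
      omega
    obtain ⟨N, hN⟩ := (hP k).mpr hmk
    obtain ⟨s', i', ℓ', N', hD', hs', ⟨d0, hd0, hctx⟩, d1, hd1, hpump1⟩ :=
      pumping hQ hQ.init hN hlarge
    rw [hb] at hd1
    have hex : ∃ d, d ≤ b ∧ Pump g a s' i' (ℓ' : ZMod n) d := ⟨d1, hd1, hpump1⟩
    refine ⟨(s', i', (ℓ' : ZMod n)), mem_types.mpr hs', ?_⟩
    have hc : c (s', i', (ℓ' : ZMod n)) = hex.choose := dif_pos hex
    rw [hc]
    obtain ⟨hle, hpos, hcast, hpump⟩ := hex.choose_spec
    set d := hex.choose with hd
    -- iterate the pump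
    have hiter : ∀ r : ℕ, ∃ N'', D g a s' i' (ℓ' + r * d) N'' := by
      intro r
      induction r with
      | zero => exact ⟨N', by simpa using hD'⟩
      | succ r ih =>
        obtain ⟨N'', h⟩ := ih
        obtain ⟨N3, h3⟩ := hpump _ _ (by push_cast; rw [hcast]; ring) h
        refine ⟨N3, ?_⟩
        have : ℓ' + (r + 1) * d = ℓ' + r * d + d := by ring
        rw [this]
        exact h3
    obtain ⟨c', hc'⟩ : n ∣ d := (ZMod.natCast_eq_zero_iff d n).mp hcast
    have hall : ∀ r : ℕ, ¬ m ∣ k + r * c' := by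
      intro r
      rw [← hP]
      obtain ⟨N'', h⟩ := hiter r
      obtain ⟨N3, h3⟩ := hctx _ _ (by push_cast; rw [hcast]; ring) h
      refine ⟨N3, ?_⟩
      have : n * (k + r * c') = ℓ' + r * d + d0 := by
        rw [hc', mul_add, hd0]
        ring
      rw [this]
      exact h3
    have h5 := prime_pow_dvd hm0 hp hall
    rw [hc']
    exact h5.trans (Dvd.intro_left _ rfl)

/-- the order of a torsion element of a group whose non-identity words are the language of a
context-free grammar with `q` items -/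
theorem order_bounds {T : Type} {G : Type} [Group G] (f : T → G) (g : ContextFreeGrammar T)
    (hg : g.language = ({w : List T | (w.map f).prod ≠ 1} : Language T))
    {Q : Finset (List (Symbol T g.NT))} (hQ : Items g Q) (w : List T)
    (hw : IsOfFinOrder (w.map f).prod) :
    (∀ p e : ℕ, p.Prime → p ^ e ∣ orderOf (w.map f).prod →
      p ^ e ≤ 2 ^ (Q.card * (w.length * w.length) + 1)) ∧
    orderOf (w.map f).prod ≤
      (2 ^ (Q.card * (w.length * w.length) + 1)) ^ (Q.card * (w.length * w.length)) := by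
  classical
  rcases Nat.eq_zero_or_pos w.length with h0 | h0
  · have hw0 : w = [] := List.length_eq_zero_iff.mp h0
    subst hw0
    simp only [List.map_nil, List.prod_nil, orderOf_one, List.length_nil]
    refine ⟨fun p e _ h => ?_, by simp⟩
    have : p ^ e = 1 := Nat.dvd_one.mp h
    rw [this]
    exact Nat.one_le_two_pow
  · have : NeZero w.length := ⟨h0.ne'⟩
    obtain ⟨c, hc, hdvd⟩ := key f g hg hQ w hw
    have hm0 : orderOf (w.map f).prod ≠ 0 := hw.orderOf_pos.ne'
    have hpe : ∀ p e : ℕ, p.Prime → p ^ e ∣ orderOf (w.map f).prod → e ≠ 0 →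
        ∃ τ ∈ types (n := w.length) Q, p ^ e ∣ c τ := by
      intro p e hp hpe he
      have hpm : p ∣ orderOf (w.map f).prod := (dvd_pow_self p he).trans hpe
      obtain ⟨τ, hτ, h⟩ := hdvd p hp hpm
      refine ⟨τ, hτ, (pow_dvd_pow p ?_).trans h⟩
      exact (hp.pow_dvd_iff_le_factorization hm0).mp hpe
    constructor
    · intro p e hp hd
      rcases Nat.eq_zero_or_pos e with he | he
      · subst he
        rw [pow_zero]
        exact Nat.one_le_two_pow
      · obtain ⟨τ, _, h⟩ := hpe p e hp hd he.ne'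
        exact (Nat.le_of_dvd (hc τ).1 h).trans (hc τ).2
    · have h1 : orderOf (w.map f).prod ∣ ∏ τ ∈ types (n := w.length) Q, c τ := by
        rw [Nat.dvd_iff_prime_pow_dvd_dvd]
        intro p e hp hd
        rcases Nat.eq_zero_or_pos e with he | he
        · subst he
          simp
        · obtain ⟨τ, hτ, h⟩ := hpe p e hp hd he.ne'
          exact h.trans (Finset.dvd_prod_of_mem c hτ)
      have h2 : 0 < ∏ τ ∈ types (n := w.length) Q, c τ :=
        Finset.prod_pos fun τ _ => (hc τ).1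
      refine (Nat.le_of_dvd h2 h1).trans ?_
      refine (Finset.prod_le_pow_card _ _ _ fun τ _ => (hc τ).2).trans ?_
      rw [card_types]

end CoCF
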