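import Mathlib

set_option linter.unusedSectionVars false

namespace CoCF

variable {T : Type} (g : ContextFreeGrammar T) {n : ℕ} (a : ZMod n → T)

/-- `D g a s i ℓ N`: the string of symbols `s` derives the factor of length `ℓ` starting at
position `i` of the periodic word `a`, by a derivation of size `N` -/
inductive D : List (Symbol T g.NT) → ZMod n → ℕ → ℕ → Prop
  | nil (i : ZMod n) : D [] i 0 0
  | term (c : T) (s : List (Symbol T g.NT)) (i : ZMod n) (ℓ N : ℕ) (hc : a i = c)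
      (h : D s (i + 1) ℓ N) : D (Symbol.terminal c :: s) i (ℓ + 1) (N + 1)
  | nt (r : ContextFreeRule T g.NT) (s : List (Symbol T g.NT)) (i : ZMod n) (ℓ₁ ℓ₂ N₁ N₂ : ℕ)
      (hr : r ∈ g.rules) (h₁ : D r.output i ℓ₁ N₁) (h₂ : D s (i + (ℓ₁ : ZMod n)) ℓ₂ N₂) :
      D (Symbol.nonterminal r.input :: s) i (ℓ₁ + ℓ₂) (N₁ + N₂ + 1)

/-- factor of the periodic word -/
def fac (i : ZMod n) (ℓ : ℕ) : List T := (List.range ℓ).map fun (t : ℕ) => a (i + (t : ZMod n))

theorem fac_zero (i : ZMod n) : fac a i 0 = [] := rfl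

theorem fac_add (i : ZMod n) (p q : ℕ) :
    fac a i (p + q) = fac a i p ++ fac a (i + (p : ZMod n)) q := by
  unfold fac
  rw [List.range_add, List.map_append, List.map_map]
  congr 1
  apply List.map_congr_left
  intro t _
  simp only [Function.comp_apply, Nat.cast_add, add_assoc]

theorem fac_one (i : ZMod n) : fac a i 1 = [a i] := by
  simp [fac, List.range_succ]

theorem fac_succ (i : ZMod n) (ℓ : ℕ) : fac a i (ℓ + 1) = a i :: fac a (i + 1) ℓ := by
  rw [add_comm, fac_add, fac_one]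
  simp

theorem length_fac (i : ZMod n) (ℓ : ℕ) : (fac a i ℓ).length = ℓ := by
  simp [fac]

variable {g a}

theorem D_derives {s : List (Symbol T g.NT)} {i : ZMod n} {ℓ N : ℕ} (h : D g a s i ℓ N) :
    g.Derives s ((fac a i ℓ).map Symbol.terminal) := by
  induction h with
  | nil i => exact Relation.ReflTransGen.refl
  | term c s i ℓ N hc h ih =>
    rw [fac_succ, List.map_cons, hc]
    exact ih.append_left [Symbol.terminal c]
  | nt r s i ℓ₁ ℓ₂ N₁ N₂ hr h₁ h₂ ih₁ ih₂ =>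
    rw [fac_add, List.map_append]
    have h3 : g.Derives (Symbol.nonterminal r.input :: s) (r.output ++ s) :=
      Relation.ReflTransGen.single ⟨r, hr, ContextFreeRule.Rewrites.head s⟩
    exact h3.trans ((ih₁.append_right s).trans (ih₂.append_left _))

theorem D_append_left {p q : List (Symbol T g.NT)} {i : ZMod n} {ℓ N : ℕ}
    (h : D g a (p ++ q) i ℓ N) : ∃ ℓ₁ ℓ₂ N₁ N₂, ℓ = ℓ₁ + ℓ₂ ∧ D g a p i ℓ₁ N₁ ∧
      D g a q (i + (ℓ₁ : ZMod n)) ℓ₂ N₂ := by
  induction p generalizing i ℓ N with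
  | nil => exact ⟨0, ℓ, 0, N, by simp, D.nil i, by simpa using h⟩
  | cons x p ih =>
    rw [List.cons_append] at h
    cases h with
    | term c s _ ℓ' N' hc h' =>
      obtain ⟨l1, l2, n1, n2, h1, h2, h3⟩ := ih h'
      refine ⟨l1 + 1, l2, n1 + 1, n2, by omega, D.term _ _ _ _ _ hc h2, ?_⟩
      have : i + ((l1 + 1 : ℕ) : ZMod n) = i + 1 + (l1 : ZMod n) := by push_cast; ring
      rw [this]
      exact h3
    | nt r s _ l1' l2' n1' n2' hr h1' h2' =>
      obtain ⟨l1, l2, n1, n2, h1, h2, h3⟩ := ih h2'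
      refine ⟨l1' + l1, l2, n1' + n1 + 1, n2, by omega, D.nt _ _ _ _ _ _ _ hr h1' h2, ?_⟩
      have : i + ((l1' + l1 : ℕ) : ZMod n) = i + (l1' : ZMod n) + (l1 : ZMod n) := by
        push_cast; ring
      rw [this]
      exact h3

theorem D_append {p q : List (Symbol T g.NT)} {i : ZMod n} {ℓ₁ ℓ₂ N₁ N₂ : ℕ}
    (h₁ : D g a p i ℓ₁ N₁) (h₂ : D g a q (i + (ℓ₁ : ZMod n)) ℓ₂ N₂) :
    ∃ N, D g a (p ++ q) i (ℓ₁ + ℓ₂) N := by
  induction h₁ with
  | nil i =>
    refine ⟨N₂, ?_⟩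
    simpa using h₂
  | term c s i ℓ N hc h ih =>
    have : i + ((ℓ + 1 : ℕ) : ZMod n) = i + 1 + (ℓ : ZMod n) := by push_cast; ring
    rw [this] at h₂
    obtain ⟨N', h'⟩ := ih h₂
    refine ⟨N' + 1, ?_⟩
    have h4 := D.term c _ i _ _ hc h'
    rw [List.cons_append]
    convert h4 using 1
    ring
  | nt r s i l₁ l₂ n₁ n₂ hr h₁ h₂' ih₁ ih₂ =>
    have : i + ((l₁ + l₂ : ℕ) : ZMod n) = i + (l₁ : ZMod n) + (l₂ : ZMod n) := by
      push_cast; ring
    rw [this] at h₂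
    obtain ⟨N', h'⟩ := ih₂ h₂
    refine ⟨n₁ + N' + 1, ?_⟩
    have h4 := D.nt r _ i _ _ _ _ hr h₁ h'
    rw [List.cons_append]
    convert h4 using 1
    ring

theorem D_terminals (i : ZMod n) (ℓ : ℕ) :
    D g a ((fac a i ℓ).map Symbol.terminal) i ℓ ℓ := by
  induction ℓ generalizing i with
  | zero => exact D.nil i
  | succ ℓ ih =>
    rw [fac_succ, List.map_cons]
    exact D.term _ _ _ _ _ rfl (ih (i + 1))

theorem derives_D {s u : List (Symbol T g.NT)} (h : g.Derives s u) {i : ZMod n} {ℓ : ℕ}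
    (hu : u = (fac a i ℓ).map Symbol.terminal) : ∃ N, D g a s i ℓ N := by
  induction h using Relation.ReflTransGen.head_induction_on with
  | refl => rw [hu]; exact ⟨ℓ, D_terminals i ℓ⟩
  | head h' _ ih =>
    obtain ⟨N, ih⟩ := ih
    obtain ⟨r, hr, hrw⟩ := h'
    obtain ⟨p, q, rfl, rfl⟩ := hrw.exists_parts
    rw [List.append_assoc] at ih
    obtain ⟨l1, l2, n1, n2, h1, h2, h3⟩ := D_append_left ih
    obtain ⟨l3, l4, n3, n4, h4, h5, h6⟩ := D_append_left h3
    subst h1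
    subst h4
    have h7 := D.nt r q _ _ _ _ _ hr h5 h6
    obtain ⟨N', h8⟩ := D_append h2 h7
    refine ⟨N', ?_⟩
    rw [List.append_assoc]
    exact h8

theorem mem_language_iff {ℓ : ℕ} {i : ZMod n} : fac a i ℓ ∈ g.language ↔
    ∃ N, D g a [Symbol.nonterminal g.initial] i ℓ N := by
  constructor
  · intro h
    exact derives_D h rfl
  · rintro ⟨N, h⟩
    exact D_derives h

end CoCF
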