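import Pool.Agent.Lib_helper85.CoCF.Basic

set_option linter.unusedSectionVars false

namespace CoCF

variable {T : Type} (g : ContextFreeGrammar T) {n : ℕ} (a : ZMod n → T)

/-- a finite set of strings closed under tails, containing the start string and all right-hand
sides -/
structure Items (Q : Finset (List (Symbol T g.NT))) : Prop where
  init : [Symbol.nonterminal g.initial] ∈ Q
  out : ∀ r ∈ g.rules, r.output ∈ Q
  tail : ∀ x s, (x :: s) ∈ Q → s ∈ Q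

theorem exists_items : ∃ Q, Items g Q := by
  classical
  refine ⟨((g.rules.image ContextFreeRule.output) ∪ {[Symbol.nonterminal g.initial]}).biUnion
    (fun l => l.tails.toFinset), ?_, ?_, ?_⟩
  · rw [Finset.mem_biUnion]
    refine ⟨[Symbol.nonterminal g.initial], by simp, ?_⟩
    rw [List.mem_toFinset, List.mem_tails]
  · intro r hr
    rw [Finset.mem_biUnion]
    refine ⟨r.output, ?_, ?_⟩
    · rw [Finset.mem_union, Finset.mem_image]
      exact Or.inl ⟨r, hr, rfl⟩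
    · rw [List.mem_toFinset, List.mem_tails]
  · intro x s h
    rw [Finset.mem_biUnion] at h ⊢
    obtain ⟨l, hl, h⟩ := h
    refine ⟨l, hl, ?_⟩
    rw [List.mem_toFinset, List.mem_tails] at h ⊢
    exact (List.suffix_cons x s).trans h

/-- semantic contexts -/
def Ctx (s : List (Symbol T g.NT)) (i : ZMod n) (ℓ : ℕ) (s' : List (Symbol T g.NT)) (i' : ZMod n)
    (ℓ' : ℕ) : Prop :=
  ∃ d : ℕ, ℓ = ℓ' + d ∧ ∀ l N : ℕ, (l : ZMod n) = (ℓ' : ZMod n) → D g a s' i' l N →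
    ∃ N', D g a s i (l + d) N'

/-- semantic pumps -/
def Pump (s : List (Symbol T g.NT)) (i e : ZMod n) (d : ℕ) : Prop :=
  0 < d ∧ (d : ZMod n) = 0 ∧ ∀ l N : ℕ, (l : ZMod n) = e → D g a s i l N → ∃ N', D g a s i (l + d) N'

/-- there is a node with a small pump -/
def Pumpable (Q : Finset (List (Symbol T g.NT))) (b : ℕ) (s : List (Symbol T g.NT)) (i : ZMod n)
    (ℓ : ℕ) : Prop :=
  ∃ s' i' ℓ' N', D g a s' i' ℓ' N' ∧ s' ∈ Q ∧ Ctx g a s i ℓ s' i' ℓ' ∧
    ∃ d, d ≤ b ∧ Pump g a s' i' (ℓ' : ZMod n) d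

variable {g a}

theorem Ctx.refl (s : List (Symbol T g.NT)) (i : ZMod n) (ℓ : ℕ) : Ctx g a s i ℓ s i ℓ :=
  ⟨0, by simp, fun l N _ h => ⟨N, by simpa using h⟩⟩

theorem Ctx.trans {s s' s'' : List (Symbol T g.NT)} {i i' i'' : ZMod n} {ℓ ℓ' ℓ'' : ℕ}
    (h : Ctx g a s i ℓ s' i' ℓ') (h' : Ctx g a s' i' ℓ' s'' i'' ℓ'') :
    Ctx g a s i ℓ s'' i'' ℓ'' := by
  obtain ⟨d, hd, h⟩ := h
  obtain ⟨d', hd', h'⟩ := h'
  refine ⟨d' + d, by omega, fun l N hl hD => ?_⟩
  obtain ⟨N', hN'⟩ := h' l N hl hD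
  obtain ⟨N'', hN''⟩ := h (l + d') N' (by rw [hd']; push_cast; rw [hl]) hN'
  exact ⟨N'', by rw [← add_assoc]; exact hN''⟩

theorem Pumpable.lift {Q : Finset (List (Symbol T g.NT))} {b : ℕ}
    {s s' : List (Symbol T g.NT)} {i i' : ZMod n} {ℓ ℓ' : ℕ}
    (h : Ctx g a s i ℓ s' i' ℓ') (h' : Pumpable g a Q b s' i' ℓ') : Pumpable g a Q b s i ℓ := by
  obtain ⟨t, j, m, N, h1, h2, h3, h4⟩ := h'
  exact ⟨t, j, m, N, h1, h2, h.trans h3, h4⟩

theorem ctx_term {c : T} {s : List (Symbol T g.NT)} {i : ZMod n} {ℓ : ℕ} (hc : a i = c) :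
    Ctx g a (Symbol.terminal c :: s) i (ℓ + 1) s (i + 1) ℓ :=
  ⟨1, rfl, fun l N _ h => ⟨N + 1, D.term c s i l N hc h⟩⟩

theorem ctx_left {r : ContextFreeRule T g.NT} {s : List (Symbol T g.NT)} {i : ZMod n}
    {ℓ₁ ℓ₂ N₂ : ℕ} (hr : r ∈ g.rules) (h₂ : D g a s (i + (ℓ₁ : ZMod n)) ℓ₂ N₂) :
    Ctx g a (Symbol.nonterminal r.input :: s) i (ℓ₁ + ℓ₂) r.output i ℓ₁ :=
  ⟨ℓ₂, rfl, fun l N hl h => ⟨N + N₂ + 1, D.nt r s i l ℓ₂ N N₂ hr h (by rw [hl]; exact h₂)⟩⟩

theorem ctx_right {r : ContextFreeRule T g.NT} {s : List (Symbol T g.NT)} {i : ZMod n}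
    {ℓ₁ ℓ₂ N₁ : ℕ} (hr : r ∈ g.rules) (h₁ : D g a r.output i ℓ₁ N₁) :
    Ctx g a (Symbol.nonterminal r.input :: s) i (ℓ₁ + ℓ₂) s (i + (ℓ₁ : ZMod n)) ℓ₂ :=
  ⟨ℓ₁, by ring, fun l N _ h => ⟨N₁ + N + 1, by
    rw [add_comm l ℓ₁]; exact D.nt r s i ℓ₁ l N₁ N hr h₁ h⟩⟩

variable [NeZero n]

/-- the set of all types -/
noncomputable def types (Q : Finset (List (Symbol T g.NT))) :
    Finset (List (Symbol T g.NT) × ZMod n × ZMod n) :=
  Q ×ˢ (Finset.univ ×ˢ Finset.univ)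

theorem card_types (Q : Finset (List (Symbol T g.NT))) :
    (types (n := n) Q).card = Q.card * (n * n) := by
  rw [types, Finset.card_product, Finset.card_product, Finset.card_univ, ZMod.card]

theorem mem_types {Q : Finset (List (Symbol T g.NT))} {s : List (Symbol T g.NT)} {i e : ZMod n} :
    (s, i, e) ∈ types (n := n) Q ↔ s ∈ Q := by
  simp [types]

/-- an inner node whose type lies in `F` -/
def Inner (Q : Finset (List (Symbol T g.NT)))
    (F : Finset (List (Symbol T g.NT) × ZMod n × ZMod n))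
    (s : List (Symbol T g.NT)) (i : ZMod n) (ℓ N : ℕ) : Prop :=
  ∃ s' i' ℓ' N', D g a s' i' ℓ' N' ∧ N' ≤ N ∧ s' ∈ Q ∧ (s', i', (ℓ' : ZMod n)) ∈ F ∧
    Ctx g a s i ℓ s' i' ℓ'

theorem dichotomy {Q : Finset (List (Symbol T g.NT))} (hQ : Items g Q) (N : ℕ) :
    ∀ s ∈ Q, ∀ (i : ZMod n) (ℓ : ℕ), D g a s i ℓ N →
    ¬ Pumpable g a Q (2 ^ ((types (n := n) Q).card + 1)) s i ℓ →
    ∀ F ⊆ types (n := n) Q, Inner (a := a) Q F s i ℓ N ∨
      ℓ < 2 ^ ((types (n := n) Q).card - F.card) := by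
  classical
  set H := (types (n := n) Q).card with hH
  induction N using Nat.strong_induction_on with
  | _ N IH =>
  intro s hs i ℓ hD hnp
  -- a step to a child
  have child : ∀ s' i' ℓ' N', s' ∈ Q → D g a s' i' ℓ' N' → N' < N → Ctx g a s i ℓ s' i' ℓ' →
      ∀ F ⊆ types (n := n) Q, Inner (a := a) Q F s' i' ℓ' N' ∨ ℓ' < 2 ^ (H - F.card) := by
    intro s' i' ℓ' N' hs' hD' hN' hc
    exact IH N' hN' s' hs' i' ℓ' hD' (fun h => hnp (h.lift hc))
  have child0 : ∀ s' i' ℓ' N', s' ∈ Q → D g a s' i' ℓ' N' → N' < N → Ctx g a s i ℓ s' i' ℓ' →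
      ℓ' < 2 ^ H := by
    intro s' i' ℓ' N' hs' hD' hN' hc
    rcases child s' i' ℓ' N' hs' hD' hN' hc ∅ (Finset.empty_subset _) with h | h
    · obtain ⟨_, _, _, _, _, _, _, h, _⟩ := h
      exact absurd h (Finset.notMem_empty _)
    · simpa using h
  -- an inner node of the child
  have lift : ℓ ≤ 2 ^ (H + 1) → ∀ F ⊆ types (n := n) Q, ∀ s' i' ℓ' N', N' < N →
      Ctx g a s i ℓ s' i' ℓ' →
      Inner (a := a) Q (insert (s, i, (ℓ : ZMod n)) F) s' i' ℓ' N' →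
      Inner (a := a) Q F s i ℓ N ∨ ℓ < 2 ^ (H - F.card) := by
    intro hℓ F hF s' i' ℓ' N' hN' hc hin
    obtain ⟨t, j, m, M, h1, h2, h3, h4, h5⟩ := hin
    rw [Finset.mem_insert] at h4
    rcases h4 with h4 | h4
    · simp only [Prod.mk.injEq] at h4
      obtain ⟨rfl, rfl, h4⟩ := h4
      have hc' := hc.trans h5
      obtain ⟨d, hd, hc''⟩ := hc'
      rcases Nat.eq_zero_or_pos d with h0 | h0
      · subst h0
        rw [add_zero] at hd
        subst hd
        rcases IH M (by omega) t hs j ℓ h1 hnp F hF with h | h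
        · left
          obtain ⟨t', j', m', M', g1, g2, g3⟩ := h
          exact ⟨t', j', m', M', g1, by omega, g3⟩
        · exact Or.inr h
      · exfalso
        apply hnp
        refine ⟨t, j, m, M, h1, hs, hc.trans h5, d, by omega, h0, ?_, ?_⟩
        · have h6 : (ℓ : ZMod n) = (m : ZMod n) + (d : ZMod n) := by rw [hd]; push_cast; ring
          rw [h4] at h6
          have h7 : (ℓ : ZMod n) + 0 = (ℓ : ZMod n) + (d : ZMod n) := by rw [add_zero]; exact h6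
          exact (add_left_cancel h7).symm
        · intro l N'' hl hDl
          exact hc'' l N'' hl hDl
    · left
      exact ⟨t, j, m, M, h1, by omega, h3, h4, hc.trans h5⟩
  intro F hF
  by_cases hroot : (s, i, (ℓ : ZMod n)) ∈ F
  · left
    exact ⟨s, i, ℓ, N, hD, le_rfl, hs, hroot, Ctx.refl s i ℓ⟩
  have hF' : insert (s, i, (ℓ : ZMod n)) F ⊆ types (n := n) Q := by
    rw [Finset.insert_subset_iff]
    exact ⟨mem_types.mpr hs, hF⟩
  have hcard : (insert (s, i, (ℓ : ZMod n)) F).card = F.card + 1 :=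
    Finset.card_insert_of_notMem hroot
  have hle : F.card + 1 ≤ H := by
    rw [← hcard]
    exact Finset.card_le_card hF'
  have hpow : 2 ^ (H - F.card) = 2 * 2 ^ (H - (F.card + 1)) := by
    rw [← pow_succ']
    congr 1
    omega
  have hpos : 0 < 2 ^ (H - (F.card + 1)) := by positivity
  cases hD with
  | nil =>
    right
    positivity
  | term c s' _ ℓ' N' hc h =>
    have hs' := hQ.tail _ _ hs
    have hctx := ctx_term (a := a) (s := s') (i := i) (ℓ := ℓ') hc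
    have hb := child0 s' (i + 1) ℓ' N' hs' h (by omega) hctx
    have hℓ : ℓ' + 1 ≤ 2 ^ (H + 1) := by rw [pow_succ]; omega
    rcases child s' (i + 1) ℓ' N' hs' h (by omega) hctx _ hF' with h1 | h1
    · exact lift hℓ F hF s' (i + 1) ℓ' N' (by omega) hctx h1
    · right
      rw [hcard] at h1
      rw [hpow]
      omega
  | nt r s' _ ℓ₁ ℓ₂ N₁ N₂ hr h₁ h₂ =>
    have hs' := hQ.tail _ _ hs
    have ho := hQ.out r hr
    have hctx1 := ctx_left (a := a) (s := s') (i := i) (ℓ₁ := ℓ₁) hr h₂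
    have hctx2 := ctx_right (a := a) (s := s') (i := i) (ℓ₂ := ℓ₂) hr h₁
    have hb1 := child0 r.output i ℓ₁ N₁ ho h₁ (by omega) hctx1
    have hb2 := child0 s' (i + (ℓ₁ : ZMod n)) ℓ₂ N₂ hs' h₂ (by omega) hctx2
    have hℓ : ℓ₁ + ℓ₂ ≤ 2 ^ (H + 1) := by rw [pow_succ]; omega
    rcases child r.output i ℓ₁ N₁ ho h₁ (by omega) hctx1 _ hF' with h1 | h1
    · exact lift hℓ F hF _ _ _ _ (by omega) hctx1 h1
    · rcases child s' (i + (ℓ₁ : ZMod n)) ℓ₂ N₂ hs' h₂ (by omega) hctx2 _ hF' with h2 | h2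
      · exact lift hℓ F hF _ _ _ _ (by omega) hctx2 h2
      · right
        rw [hcard] at h1 h2
        rw [hpow]
        omega

/-- the pumping lemma with types -/
theorem pumping {Q : Finset (List (Symbol T g.NT))} (hQ : Items g Q) {s : List (Symbol T g.NT)}
    (hs : s ∈ Q) {i : ZMod n} {ℓ N : ℕ} (h : D g a s i ℓ N)
    (hℓ : 2 ^ (types (n := n) Q).card ≤ ℓ) :
    Pumpable g a Q (2 ^ ((types (n := n) Q).card + 1)) s i ℓ := by
  by_contra hnp
  rcases dichotomy hQ N s hs i ℓ h hnp ∅ (Finset.empty_subset _) with h1 | h1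
  · obtain ⟨_, _, _, _, _, _, _, h, _⟩ := h1
    exact absurd h (Finset.notMem_empty _)
  · simp only [Finset.card_empty, Nat.sub_zero] at h1
    omega

end CoCF
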